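import Pool.Agent.helper7.FI2.SpecH2

set_option autoImplicit false

namespace Pool.Agent.FI2

open Pool.Agent.helper58.DC Pool.Agent.DI Pool.Agent.GR Pool.Agent.OB Pool.Agent.DR Pool.Agent.FI

theorem HGG_cz_bot (G : Type) [Group G] : cz (⊥ : Subgroup G) = ⊤ := by
  rw [eq_top_iff]
  intro x _
  rw [Subgroup.mem_centralizer_iff]
  intro y hy
  have h1 : y = 1 := Subgroup.mem_bot.1 hy
  rw [h1, one_mul, mul_one]

theorem HGG_Zc {G : Type} [Group G] {p : ℕ} {D : Subgroup G} (hD : IsPGroup p D)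
    (hG : IsOp p (⊤ : Subgroup G) ⊥) : Zc D (⊤ : Subgroup G) = ⊥ := by
  rw [← le_bot_iff]
  refine hG.2 ⟨le_top, hD.to_le inf_le_left, ?_⟩
  intro g _
  rw [Subgroup.mem_normalizer_iff]
  intro u
  constructor
  · intro hu
    have h1 := (Zc_mem.1 hu).2 g (Subgroup.mem_top g)
    have h2 : g * u * g⁻¹ = u := by
      rw [h1]
      group
    rw [h2]
    exact hu
  · intro hu
    have h1 := (Zc_mem.1 hu).2 g (Subgroup.mem_top g)
    have h2 : g * u * g⁻¹ = u := by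
      have h3 : g * (g * u * g⁻¹) = g * u := by
        rw [h1]
        group
      exact mul_left_cancel h3
    rw [h2] at hu
    exact hu

theorem HGG (hHQA : HQA_stmt) (hLAF : LAF_stmt) (hN3CS : FI3.N3CS_stmt) (hTPR : FI.TPR_stmt) : HGG_stmt := by
  classical
  intro p M hS hp G _ _ D x θ χ h hT hG
  have hL0 := h.lo
  have hR := hL0.rt
  have hcz := HGG_cz_bot G
  have hZc : Zc D (cz (⊥ : Subgroup G)) = ⊥ := by
    rw [hcz]
    exact HGG_Zc hR.dfa.pgrp hG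
  have hY : FI3.YY M D θ = ⊥ := FI3.YY_bot hL0.free hT
  have hBl : Blk M χ (⊤ : Subgroup G) = Bl M (cz (⊥ : Subgroup G)) θ := by
    obtain ⟨-, h2, -, -, -⟩ := hTPR p M hS G
    have h3 : SB M (⊤ : Subgroup G) θ χ := (h2 θ χ).1 hR.ind
    rw [hcz]
    ext ψ
    constructor
    · rintro ⟨h4, h5⟩
      exact ⟨h4, ((h2 ψ χ).1 h5).trans h3.symm⟩
    · rintro ⟨h4, h5⟩
      exact ⟨h4, (h2 ψ χ).2 (h5.trans h3)⟩
  obtain ⟨lL, hl1, -, hnum⟩ := hN3CS p M hS G D x θ χ (FI3.LoS.of2 hL0)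
    (fun P hP hPY => h.good P hP (fun hb => hPY (by rw [hb]; exact bot_le))) ⊥ bot_le
    (fun u hu hZ => by
      exfalso
      rw [hY] at hu
      apply hZ
      rw [Subgroup.mem_bot.1 hu]
      exact Subgroup.one_mem _)
  have h0 := hnum ⊥ bot_le 1
  have hXL : FI3.XL M (cz (⊥ : Subgroup G)) θ (⊥ : Subgroup G) 1 = Bl M (cz (⊥ : Subgroup G)) θ := by
    ext ψ
    constructor
    · exact fun hψ => hψ.1
    · intro hψ
      refine ⟨hψ, fun z => ?_⟩
      have hz : (z : G) = 1 := Subgroup.mem_bot.1 z.2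
      rw [hz, MonoidHom.one_apply, Units.val_one, one_mul]
  rw [hXL, hZc, hY, Subgroup.card_bot] at h0
  unfold FI3.iI at h0
  obtain ⟨I, β, n, hI, hL, -⟩ := hHQA p M hS hp G D x θ χ h hT hG
  have hfin : (Bl M (cz (⊥ : Subgroup G)) θ).Finite := (IrrOn_fin _).subset fun ψ hψ => hψ.1
  have : Finite ↥(Bl M (cz (⊥ : Subgroup G)) θ) := hfin.to_subtype
  have hA := hLAF p M D (Bl M (cz (⊥ : Subgroup G)) θ) _ _ _ _ _ hL
  have hc1 := hA.c1 1 (fun t _ u => by rw [lv_hone, lv_hone])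
  have huniv : {ψ : Bl M (cz (⊥ : Subgroup G)) θ | ∀ z ∈ (⊥ : Subgroup D),
      ∀ u, β ψ (z * u) = lv (1 : D →* ℂˣ) z * β ψ u} = Set.univ := by
    refine Set.eq_univ_of_forall fun ψ => ?_
    intro z hz u
    have h1 : z = 1 := Subgroup.mem_bot.1 hz
    rw [h1, one_mul, lv_one, one_mul]
  rw [huniv, Set.ncard_univ, Nat.card_coe_set_eq, hI, Subgroup.index_bot] at hc1
  rw [hBl]
  set i : ℕ := (cz D).relIndex (TT M D θ) with hidef
  have hi0 : 0 < i := by
    rw [← hI]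
    exact Nat.card_pos
  have h2 : i ^ 2 = i * i := sq i
  have h0' : i * (Bl M (cz (⊥ : Subgroup G)) θ).ncard = i * lL + (Nat.card D - 1) := by
    rw [mul_one, one_mul, Nat.sub_self, zero_mul, add_zero] at h0
    exact h0
  refine ⟨lL, hl1, ?_, h0'⟩
  have h1 : i * lL ≤ i * i := by omega
  exact Nat.le_of_mul_le_mul_left h1 hi0

end Pool.Agent.FI2
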